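import Mathlib
import Pool.Agent.Lib.MP_58cc81_al.Construct

set_option autoImplicit false

open Topology

namespace Pool.Agent.Results.MP_58cc81_al.CentralTorusExtension

/-- `G` is balanced: its left and right uniform structures coincide. -/
def Balanced (G : Type) [Group G] [TopologicalSpace G] [IsTopologicalGroup G] : Prop :=
  IsTopologicalGroup.leftUniformSpace G = IsTopologicalGroup.rightUniformSpace G

/-- `G` has small invariant neighbourhoods: every neighbourhood of the identity contains a
neighbourhood `U` of the identity with `g U g⁻¹ = U` for all `g`. -/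
def SmallInvariantNeighbourhoods (G : Type) [Group G] [TopologicalSpace G] : Prop :=
  ∀ N ∈ 𝓝 (1 : G), ∃ U ∈ 𝓝 (1 : G), U ⊆ N ∧ ∀ g : G, (fun x => g * x * g⁻¹) '' U = U

/-- Condition 1: every abelian subgroup has compact closure. -/
def AbelianSubgroupsPrecompact (G : Type) [Group G] [TopologicalSpace G] : Prop :=
  ∀ A : Subgroup G, (∀ a ∈ A, ∀ b ∈ A, a * b = b * a) → IsCompact (closure (A : Set G))

/-- Condition 2: `G` is topologically locally finite, that is every subset with compact closure
generates a subgroup with compact closure. -/
def TopologicallyLocallyFinite (G : Type) [Group G] [TopologicalSpace G] : Prop :=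
  ∀ S : Set G, IsCompact (closure S) →
    IsCompact (closure ((Subgroup.closure S : Subgroup G) : Set G))

/-- There is a locally compact Hausdorff group `G`, even a second countable one, which is balanced
(in both senses) and satisfies conditions 1 and 2, and which is neither totally disconnected nor
compact. More precisely the identity component `K` of `G` is open, compact and central, it contains
all squares and has infinite index, and commuting elements outside `K` lie in the same coset of
`K`. -/
theorem result :
    ∃ (G : Type) (_ : Group G) (_ : TopologicalSpace G) (_ : IsTopologicalGroup G),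
      T2Space G ∧ LocallyCompactSpace G ∧ SecondCountableTopology G ∧
      Balanced G ∧ SmallInvariantNeighbourhoods G ∧
      AbelianSubgroupsPrecompact G ∧ TopologicallyLocallyFinite G ∧
      ¬ TotallyDisconnectedSpace G ∧ ¬ CompactSpace G ∧
      ∃ K : Subgroup G, (K : Set G) = connectedComponent (1 : G) ∧ IsOpen (K : Set G) ∧
        IsCompact (K : Set G) ∧ K ≤ Subgroup.center G ∧ K.index = 0 ∧ (∀ g : G, g * g ∈ K) ∧
        ∀ x y : G, x ∉ K → y ∉ K → x * y = y * x → x⁻¹ * y ∈ K := by
  refine ⟨Lib.MP_58cc81_al.G, inferInstance, inferInstance, inferInstance, inferInstance,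
    inferInstance, inferInstance, ?_, Lib.MP_58cc81_al.small_invariant,
    Lib.MP_58cc81_al.abelian_precompact, Lib.MP_58cc81_al.generates_precompact,
    Lib.MP_58cc81_al.not_totallyDisconnected, Lib.MP_58cc81_al.not_compact,
    Lib.MP_58cc81_al.K, Lib.MP_58cc81_al.K_eq_connectedComponent, Lib.MP_58cc81_al.K_isOpen,
    Lib.MP_58cc81_al.K_isCompact, ?_, ?_, Lib.MP_58cc81_al.sq_mem_K,
    fun x y hx hy h => Lib.MP_58cc81_al.comm_imp h hx hy⟩
  · exact Lib.MP_58cc81_al.uniform_eq Lib.MP_58cc81_al.small_invariant
  · intro x hx
    rw [Subgroup.mem_center_iff]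
    exact fun g => Lib.MP_58cc81_al.K_central hx g
  · exact Lib.MP_58cc81_al.K_index

end Pool.Agent.Results.MP_58cc81_al.CentralTorusExtension
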